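import Pool.Agent.U265.ME.Exp

/-! Transfer of the weighted means to `⌊n ^ c⌋`, for all exponents outside a small set. -/

set_option autoImplicit false

open Finset Filter

namespace Pool.Agent.U265.ME

open Pool.Agent.Y854.PS
open Pool.Agent.Y854.GM
open Pool.Agent.U265.MM
open Pool.Agent.N610.MS (R)

lemma SW_sum {c : ℝ} (hc : 1 < c) (i : ℕ) (F : ℕ → ℝ) : ∑ n ∈ SW 1 c i, F n =
    ∑ n ∈ SV 1 c (2 ^ i) (2 ^ (i + 1)), F n + ∑ n ∈ SV 1 c (2 ^ (i + 1)) (3 * 2 ^ i), F n := by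
  have hp : 2 ^ (i + 1) = 2 * 2 ^ i := by rw [pow_succ]; ring
  rw [← SV_add one_pos hc (by omega) (by omega)]
  apply Finset.sum_congr _ (fun _ _ => rfl)
  ext n
  rw [mem_SW one_pos hc, mem_SV one_pos hc]

/-- **Transfer of the weighted means.** -/
theorem transferE (C0 : ℝ) (hC0 : 1 ≤ C0) : ∃ κ : ℝ, 0 < κ ∧ κ < 1 ∧ ∀ {Q : Type} [Countable Q]
    (w : Q → ℕ → ℕ → ℝ) (b : Q → ℝ),
    (∀ q, ∃ C : ℝ, 0 < C ∧ ∀ i t : ℕ, |w q i t| ≤ C * ((2 : ℝ) ^ i) ^ (κ - 1)) →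
    ∃ E : Set ℝ, dimH E < 1 ∧ ∀ c : ℝ, 1 < c → c ≤ C0 → c ∉ E → ∀ q : Q,
      (∀ ρ : ℝ, 0 < ρ → ∀ᶠ i : ℕ in atTop,
        |∑ n ∈ SW 1 c i, vv 1 c (w q i) n - ∑ t ∈ Ioc (2 ^ i) (3 * 2 ^ i), w q i t| ≤ ρ) ∧
      (∀ l : ℕ, 1 ≤ l → ∀ ρ : ℝ, 0 < ρ → ∀ᶠ i : ℕ in atTop, ∀ j : ℕ, j < (i + 1) * l →
        |∑ n ∈ SW 1 c i, vv 1 c (w q i) n * R (ms 1 c n) (yg (b q) l i j) -
          ∑ t ∈ Ioc (2 ^ i) (3 * 2 ^ i), w q i t * R t (yg (b q) l i j)| ≤ ρ) := by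
  classical
  obtain ⟨κ, hκ0, hκ1, hsamp⟩ := samp_genE C0 hC0
  have hκ8 : κ ≤ 1 / 8 := hκ1.trans (by
    rw [div_le_div_iff₀ (by positivity) (by norm_num)]
    linarith)
  refine ⟨κ / 8, by positivity, by linarith, fun {Q} _ w b hw => ?_⟩
  -- the families
  set g : Q × ℕ × ℕ × Bool → ℕ → ℕ → ℕ → ℝ := fun p i k t =>
    (2 : ℝ) ^ i * (w p.1 i t *
      (if p.2.2.2 then R t (yg (b p.1) (p.2.1 + 1) i (k * (p.2.1 + 1) + p.2.2.1)) else 1)) with hg
  have hWG : ∀ p, WG (κ / 4) (g p) := by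
    rintro ⟨q, l, s, f⟩
    obtain ⟨C, hC, hwq⟩ := hw q
    obtain ⟨Cl, hCl, hlog⟩ := log_win (κ / 8) (by positivity)
    refine ⟨C * (Cl + 1), by positivity, fun i k t _ h1 h2 => ?_⟩
    simp only [hg]
    have hX : (0 : ℝ) < 2 ^ i := by positivity
    have hX1 : (1 : ℝ) ≤ 2 ^ i := one_le_pow₀ (by norm_num)
    have h2i : 1 ≤ 2 ^ i := Nat.one_le_two_pow
    have ht : 2 ≤ t := by omega
    have hr : |if f = true then R t (yg (b q) (l + 1) i (k * (l + 1) + s)) else 1| ≤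
        (Cl + 1) * ((2 : ℝ) ^ i) ^ (κ / 8) := by
      have h3 : (1 : ℝ) ≤ ((2 : ℝ) ^ i) ^ (κ / 8) := Real.one_le_rpow hX1 (by positivity)
      split_ifs
      · have hy : 1 ≤ yg (b q) (l + 1) i (k * (l + 1) + s) := yg_ge_one _ _ _ _
        rw [abs_of_nonneg (R_nonneg t (by linarith))]
        refine (R_le t ht (by linarith)).trans ((hlog i t (by omega) h2).trans ?_)
        nlinarith
      · rw [abs_one]
        nlinarith
    rw [abs_mul, abs_mul, abs_of_pos hX]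
    calc (2 : ℝ) ^ i * (|w q i t| * |if f = true then R t (yg (b q) (l + 1) i (k * (l + 1) + s)) else 1|) ≤
        (2 : ℝ) ^ i * (C * ((2 : ℝ) ^ i) ^ (κ / 8 - 1) * ((Cl + 1) * ((2 : ℝ) ^ i) ^ (κ / 8))) := by
          apply mul_le_mul_of_nonneg_left _ hX.le
          exact mul_le_mul (hwq i t) hr (abs_nonneg _) (by positivity)
      _ = C * (Cl + 1) * (((2 : ℝ) ^ i) ^ (1 : ℝ) * ((2 : ℝ) ^ i) ^ (κ / 8 - 1) *
          ((2 : ℝ) ^ i) ^ (κ / 8)) := by rw [Real.rpow_one]; ring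
      _ = C * (Cl + 1) * ((2 : ℝ) ^ i) ^ (κ / 4) := by
          rw [← Real.rpow_add hX, ← Real.rpow_add hX]
          congr 2
          ring
  set F1 : Q × ℕ × ℕ × Bool → ℕ → ℕ → ℕ → ℝ :=
    fun p i k t => if k + 1 ≤ i ∧ t ≤ 3 * 2 ^ (i - 1) then g p (i - 1) k t else 0 with hF1
  choose E0 hE0 hα0 using fun p => hsamp 4 MF MF_le (fun i j => AF (g p i) i j)
  choose E1 hE1 hα1 using fun p => hsamp 4 MF MF_le (fun i j => AF (F1 p i) i j)
  refine ⟨(⋃ p, E0 p) ∪ (⋃ p, E1 p), ?_, fun c hc hcC hcE q => ?_⟩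
  · have hlt : ENNReal.ofReal (1 - κ) < 1 := by
      have : (1 : ENNReal) = ENNReal.ofReal 1 := by simp
      rw [this]
      exact (ENNReal.ofReal_lt_ofReal_iff (by norm_num)).mpr (by linarith)
    refine lt_of_le_of_lt ?_ hlt
    rw [dimH_union, dimH_iUnion, dimH_iUnion]
    exact max_le (iSup_le hE0) (iSup_le hE1)
  have hc0 : 0 < c := by linarith
  have hκc : κ ≤ 1 / (8 * c) := hκ1.trans (by
    rw [div_le_div_iff₀ (by positivity) (by positivity)]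
    linarith)
  have h1c : 1 / c ≤ 1 := by rw [div_le_one hc0]; exact hc.le
  set a : ℝ := (1 : ℝ) ^ (-(1 / c)) with ha
  have ha1 : a = 1 := Real.one_rpow _
  -- one family
  have key : ∀ (l s : ℕ) (f : Bool) (ρ : ℝ), 0 < ρ → ∀ᶠ i : ℕ in atTop, ∀ k : ℕ, k ≤ i →
      |∑ n ∈ SW 1 c i, vv 1 c (w q i) n * (if f = true then
          R (ms 1 c n) (yg (b q) (l + 1) i (k * (l + 1) + s)) else 1) -
        ∑ t ∈ Ioc (2 ^ i) (3 * 2 ^ i), w q i t * (if f = true then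
          R t (yg (b q) (l + 1) i (k * (l + 1) + s)) else 1)| ≤ ρ := by
    intro l s f ρ hρ
    set p : Q × ℕ × ℕ × Bool := (q, l, s, f) with hp
    have hp0 : c ∉ E0 p := fun h => hcE (Or.inl (Set.mem_iUnion.mpr ⟨p, h⟩))
    have hp1 : c ∉ E1 p := fun h => hcE (Or.inr (Set.mem_iUnion.mpr ⟨p, h⟩))
    obtain ⟨Cg, hCg, hgrow⟩ := hWG p
    have hG0 : UG (κ / 4) (g p) := by
      refine ⟨Cg, hCg, fun i k t hk h1 h2 => ?_⟩
      apply hgrow i k t hk h1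
      rw [pow_succ] at h2
      omega
    have hG1 : UG (κ / 4) (F1 p) := by
      refine ⟨Cg, hCg, fun i k t hk h1 h2 => ?_⟩
      simp only [hF1]
      split_ifs with h
      · have h3 := hgrow (i - 1) k t (by omega) (lt_of_le_of_lt (Nat.pow_le_pow_right (by norm_num) (by omega)) h1) h.2
        refine h3.trans (mul_le_mul_of_nonneg_left ?_ hCg.le)
        apply Real.rpow_le_rpow (by positivity) _ (by positivity)
        exact pow_le_pow_right₀ (by norm_num) (by omega)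
      · rw [abs_zero]; positivity
    obtain ⟨K0, hK0, i0, h0⟩ := block3 1 c κ one_pos hc hκ0 hκc (g p) hG0 (hα0 p c hc hcC hp0)
    obtain ⟨K1, hK1, i1, h1⟩ := block3 1 c κ one_pos hc hκ0 hκc (F1 p) hG1 (hα1 p c hc hcC hp1)
    have hlim : Tendsto (fun i : ℕ => (6 * c * K0 + 12 * c * K1) * ((2 : ℝ) ^ i) ^ (-(κ / 2))) atTop
        (nhds ((6 * c * K0 + 12 * c * K1) * 0)) := by
      apply Tendsto.const_mul
      exact (tendsto_rpow_neg_atTop (by positivity)).comp (tendsto_pow_atTop_atTop_of_one_lt (by norm_num))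
    rw [mul_zero] at hlim
    filter_upwards [eventually_ge_atTop (max i0 i1), hlim.eventually (eventually_le_nhds hρ)] with i hi hsmall k hk
    have hi0 : i0 ≤ i := (le_max_left _ _).trans hi
    have hi1 : i1 ≤ i + 1 := ((le_max_right _ _).trans hi).trans (Nat.le_succ _)
    have hX : (0 : ℝ) < 2 ^ i := by positivity
    have hX1 : (1 : ℝ) ≤ 2 ^ i := one_le_pow₀ (by norm_num)
    have hp2 : 2 ^ (i + 1) = 2 * 2 ^ i := by rw [pow_succ]; ring
    have hp3 : 2 ^ (i + 1 + 1) = 4 * 2 ^ i := by rw [pow_succ, pow_succ]; ring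
    have h2i : 1 ≤ 2 ^ i := Nat.one_le_two_pow
    set φ : ℕ → ℝ := fun t => 1 / wt c t with hφ
    have hφ0 : ∀ t, 0 ≤ φ t := fun t => by
      simp only [hφ]
      exact div_nonneg zero_le_one (wt_nonneg hc t)
    have hφm : ∀ t, 1 ≤ t → φ t ≤ φ (t + 1) := fun t ht =>
      one_div_le_one_div_of_le (wt_pos hc (by omega)) (wt_anti hc (by omega) (Nat.le_succ t))
    have hφb : ∀ t, 2 ^ i < t → t ≤ 3 * 2 ^ i → φ t ≤ 3 * c * ((2 : ℝ) ^ i) ^ (1 - 1 / c) := fun t ht1 ht2 =>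
      inv_wt hc ht1 ht2
    -- the first block
    have hA := abel_bd one_pos hc a (g p i k) φ (2 ^ i) (2 ^ (i + 1)) (by omega)
      (K0 * ((2 : ℝ) ^ i) ^ (1 / c - κ / 2))
      (fun t ht1 ht2 => h0 i hi0 k hk t ht1 ht2 _ (fun n => mem_SV one_pos hc _ _ n))
      (hφ0 _) (fun t ht1 _ => hφm t (by omega))
    -- the second block
    have eF1 : ∀ t, t ≤ 3 * 2 ^ i → F1 p (i + 1) k t = g p i k t := by
      intro t ht
      simp only [hF1, Nat.add_sub_cancel]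
      rw [if_pos ⟨by omega, ht⟩]
    have hB := abel_bd one_pos hc a (g p i k) φ (2 ^ (i + 1)) (3 * 2 ^ i) (by omega)
      (K1 * ((2 : ℝ) ^ (i + 1)) ^ (1 / c - κ / 2))
      (fun t ht1 ht2 => by
        have h2 := h1 (i + 1) hi1 k (by omega) t ht1 (by omega) _ (fun n => mem_SV one_pos hc _ _ n)
        have e1 : ∑ n ∈ SV 1 c (2 ^ (i + 1)) t, F1 p (i + 1) k (ms 1 c n) =
            ∑ n ∈ SV 1 c (2 ^ (i + 1)) t, g p i k (ms 1 c n) := by
          apply Finset.sum_congr rfl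
          intro n hn
          rw [mem_SV one_pos hc] at hn
          exact eF1 _ (by omega)
        have e2 : ∑ s ∈ Ioc (2 ^ (i + 1)) t, wt c s * F1 p (i + 1) k s =
            ∑ s ∈ Ioc (2 ^ (i + 1)) t, wt c s * g p i k s := by
          apply Finset.sum_congr rfl
          intro s hs
          rw [mem_Ioc] at hs
          rw [eF1 s (by omega)]
        rw [e1, e2] at h2
        exact h2)
      (hφ0 _) (fun t ht1 _ => hφm t (by omega))
    have hpow1 : ((2 : ℝ) ^ (i + 1)) ^ (1 / c - κ / 2) ≤ 2 * ((2 : ℝ) ^ i) ^ (1 / c - κ / 2) := by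
      rw [pow_succ, mul_comm, Real.mul_rpow (by norm_num) hX.le]
      apply mul_le_mul_of_nonneg_right _ (by positivity)
      calc (2 : ℝ) ^ (1 / c - κ / 2) ≤ (2 : ℝ) ^ (1 : ℝ) :=
            Real.rpow_le_rpow_of_exponent_le (by norm_num) (by linarith)
        _ = 2 := Real.rpow_one 2
    have hpow2 : ((2 : ℝ) ^ i) ^ (1 / c - κ / 2) * ((2 : ℝ) ^ i) ^ (1 - 1 / c) =
        2 ^ i * ((2 : ℝ) ^ i) ^ (-(κ / 2)) := by
      have h5 : (2 : ℝ) ^ i * ((2 : ℝ) ^ i) ^ (-(κ / 2)) = ((2 : ℝ) ^ i) ^ (1 : ℝ) * ((2 : ℝ) ^ i) ^ (-(κ / 2)) := by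
        rw [Real.rpow_one]
      rw [h5, ← Real.rpow_add hX, ← Real.rpow_add hX]
      congr 1
      ring
    have hA' : 2 * (K0 * ((2 : ℝ) ^ i) ^ (1 / c - κ / 2)) * φ (2 ^ (i + 1)) ≤
        6 * c * K0 * (2 ^ i * ((2 : ℝ) ^ i) ^ (-(κ / 2))) := by
      calc 2 * (K0 * ((2 : ℝ) ^ i) ^ (1 / c - κ / 2)) * φ (2 ^ (i + 1)) ≤
          2 * (K0 * ((2 : ℝ) ^ i) ^ (1 / c - κ / 2)) * (3 * c * ((2 : ℝ) ^ i) ^ (1 - 1 / c)) :=
            mul_le_mul_of_nonneg_left (hφb _ (by omega) (by omega)) (by positivity)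
        _ = 6 * c * K0 * (((2 : ℝ) ^ i) ^ (1 / c - κ / 2) * ((2 : ℝ) ^ i) ^ (1 - 1 / c)) := by ring
        _ = _ := by rw [hpow2]
    have hB' : 2 * (K1 * ((2 : ℝ) ^ (i + 1)) ^ (1 / c - κ / 2)) * φ (3 * 2 ^ i) ≤
        12 * c * K1 * (2 ^ i * ((2 : ℝ) ^ i) ^ (-(κ / 2))) := by
      calc 2 * (K1 * ((2 : ℝ) ^ (i + 1)) ^ (1 / c - κ / 2)) * φ (3 * 2 ^ i) ≤
          2 * (K1 * (2 * ((2 : ℝ) ^ i) ^ (1 / c - κ / 2))) * (3 * c * ((2 : ℝ) ^ i) ^ (1 - 1 / c)) := by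
            apply mul_le_mul _ (hφb _ (by omega) (by omega)) (hφ0 _) (by positivity)
            exact mul_le_mul_of_nonneg_left (mul_le_mul_of_nonneg_left hpow1 hK1.le) (by norm_num)
        _ = 12 * c * K1 * (((2 : ℝ) ^ i) ^ (1 / c - κ / 2) * ((2 : ℝ) ^ i) ^ (1 - 1 / c)) := by ring
        _ = _ := by rw [hpow2]
    -- the sums
    have e1 : (2 : ℝ) ^ i * ∑ n ∈ SW 1 c i, vv 1 c (w q i) n * (if f = true then
          R (ms 1 c n) (yg (b q) (l + 1) i (k * (l + 1) + s)) else 1) =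
        ∑ n ∈ SV 1 c (2 ^ i) (2 ^ (i + 1)), g p i k (ms 1 c n) * φ (ms 1 c n) +
          ∑ n ∈ SV 1 c (2 ^ (i + 1)) (3 * 2 ^ i), g p i k (ms 1 c n) * φ (ms 1 c n) := by
      rw [← SW_sum hc, Finset.mul_sum]
      apply Finset.sum_congr rfl
      intro n _
      simp only [hg, hφ, hp]
      unfold vv
      rw [← ha, ha1, mul_one]
      ring
    have e2 : (2 : ℝ) ^ i * ∑ t ∈ Ioc (2 ^ i) (3 * 2 ^ i), w q i t * (if f = true then
          R t (yg (b q) (l + 1) i (k * (l + 1) + s)) else 1) =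
        ∑ t ∈ Ioc (2 ^ i) (2 ^ (i + 1)), wt c t * (g p i k t * φ t) +
          ∑ t ∈ Ioc (2 ^ (i + 1)) (3 * 2 ^ i), wt c t * (g p i k t * φ t) := by
      rw [Finset.sum_Ioc_consecutive _ (by omega) (by omega), Finset.mul_sum]
      apply Finset.sum_congr rfl
      intro t ht
      rw [mem_Ioc] at ht
      have hwt := wt_pos hc (m := t) (by omega)
      simp only [hg, hφ, hp]
      field_simp
    rw [ha1, one_mul] at hA hB
    have hfin : (2 : ℝ) ^ i * |∑ n ∈ SW 1 c i, vv 1 c (w q i) n * (if f = true then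
          R (ms 1 c n) (yg (b q) (l + 1) i (k * (l + 1) + s)) else 1) -
        ∑ t ∈ Ioc (2 ^ i) (3 * 2 ^ i), w q i t * (if f = true then
          R t (yg (b q) (l + 1) i (k * (l + 1) + s)) else 1)| ≤
        2 ^ i * ((6 * c * K0 + 12 * c * K1) * ((2 : ℝ) ^ i) ^ (-(κ / 2))) := by
      rw [← abs_of_pos hX, ← abs_mul, abs_of_pos hX, mul_sub, e1, e2]
      have h7 := hA.trans hA'
      have h8 := hB.trans hB'
      rw [abs_le] at h7 h8 ⊢
      constructor <;> nlinarith [h7.1, h7.2, h8.1, h8.2]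
    exact (le_of_mul_le_mul_left hfin hX).trans hsmall
  refine ⟨fun ρ hρ => ?_, fun l hl ρ hρ => ?_⟩
  · filter_upwards [key 0 0 false ρ hρ] with i hi
    have h := hi 0 (Nat.zero_le _)
    simpa using h
  · obtain ⟨l', rfl⟩ : ∃ l', l = l' + 1 := ⟨l - 1, by omega⟩
    have hall : ∀ᶠ i : ℕ in atTop, ∀ s ∈ range (l' + 1), ∀ k : ℕ, k ≤ i →
      |∑ n ∈ SW 1 c i, vv 1 c (w q i) n * (if true = true then
          R (ms 1 c n) (yg (b q) (l' + 1) i (k * (l' + 1) + s)) else 1) -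
        ∑ t ∈ Ioc (2 ^ i) (3 * 2 ^ i), w q i t * (if true = true then
          R t (yg (b q) (l' + 1) i (k * (l' + 1) + s)) else 1)| ≤ ρ := by
      rw [Filter.eventually_all_finset]
      intro s _
      exact key l' s true ρ hρ
    filter_upwards [hall] with i hi j hj
    have h := hi (j % (l' + 1)) (mem_range.mpr (Nat.mod_lt _ (by omega))) (j / (l' + 1)) (by
      have : j / (l' + 1) < i + 1 := Nat.div_lt_of_lt_mul (by rw [mul_comm]; exact hj)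
      omega)
    have e : j / (l' + 1) * (l' + 1) + j % (l' + 1) = j := Nat.div_add_mod' j (l' + 1)
    rw [e] at h
    simpa using h

end Pool.Agent.U265.ME
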