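import Pool.Agent.U265.MM.Lin
import Pool.Agent.U265.ME.TrE

/-! The weights on the sequence `⌊n ^ c⌋`, for all exponents outside a small set. -/

set_option autoImplicit false

open Finset Filter

namespace Pool.Agent.U265.ME

open Pool.Agent.Y854.PS
open Pool.Agent.Y854.GM hiding mean
open Pool.Agent.U265.MM
open Pool.Agent.N610.MS (R S_MAIN)

/-- the weights on one sequence, one set of parameters -/
theorem core_one {α c : ℝ} (hα : 0 < α) (hc : 1 < c) (p : Par) (hp : p.Ok)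
    (hV : ∀ ρ : ℝ, 0 < ρ → ∀ᶠ i : ℕ in atTop,
        |∑ n ∈ SW α c i, vv α c (wsel p i) n - ∑ t ∈ Ioc (2 ^ i) (3 * 2 ^ i), wsel p i t| ≤ ρ)
    (hM : ∀ l : ℕ, 1 ≤ l → ∀ ρ : ℝ, 0 < ρ → ∀ᶠ i : ℕ in atTop, ∀ j : ℕ, j < (i + 1) * l →
        |∑ n ∈ SW α c i, vv α c (wsel p i) n * R (ms α c n) (yg p.b l i j) -
          ∑ t ∈ Ioc (2 ^ i) (3 * 2 ^ i), wsel p i t * R t (yg p.b l i j)| ≤ ρ) :
    ∃ C0 : ℝ, 0 < C0 ∧ ∀ᶠ i : ℕ in atTop, Out α c p C0 i := by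
  classical
  have hc0 : 0 < c := by linarith
  obtain ⟨hb, hη, hκ, hC, hσ, hδ, hε, hev⟩ := hp
  set w := wsel p with hw
  have hw0 : ∀ i t, 0 ≤ w i t := fun i t => (wsel_bd p i t).1
  have hev2 : ∀ᶠ i : ℕ in atTop, ∃ u, Prp p.b p.η p.κ p.C p.σ p.δ p.ε ((2 : ℝ) ^ i) u :=
    (tendsto_pow_atTop_atTop_of_one_lt (by norm_num : (1 : ℝ) < 2)).eventually hev
  have hspec : ∀ i, (∃ u, Prp p.b p.η p.κ p.C p.σ p.δ p.ε ((2 : ℝ) ^ i) u) →
      Prp p.b p.η p.κ p.C p.σ p.δ p.ε ((2 : ℝ) ^ i) (w i) := by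
    intro i h
    rw [hw]
    unfold wsel
    rw [dif_pos h]
    exact h.choose_spec
  have hw1 : ∀ᶠ i : ℕ in atTop, ∑ t ∈ Ioc (2 ^ i) (3 * 2 ^ i), w i t = 1 := by
    filter_upwards [hev2] with i hi
    have h2 := wsel_sum p i hi (fun _ => 1)
    simp only [mul_one] at h2
    obtain ⟨W, -, -, -, -, h3, -⟩ := hspec i hi
    rw [← h2]
    exact h3
  have hδC : 0 < p.δ / p.C := by positivity
  set ρ : ℝ := min (p.δ / 2) (p.δ / p.C) with hρ
  have hρ0 : 0 < ρ := lt_min (by positivity) hδC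
  have hρ1 : ρ ≤ p.δ / 2 := min_le_left _ _
  have hρ2 : ρ ≤ p.δ / p.C := min_le_right _ _
  have hs := sand hα hc hb w hw0 hw1 hV hM (p.δ + p.δ / p.C) ρ (by positivity) hρ0
  set a := α ^ (-(1 / c)) with ha
  have ha0 : 0 < a := Real.rpow_pos_of_pos hα _
  refine ⟨120 * c / a, by positivity, ?_⟩
  have hlog : ∀ᶠ i : ℕ in atTop, Real.log ((2 : ℝ) ^ i) ^ (p.b + p.κ) ≤ 2 ^ i := by
    have h2 := (isLittleO_log_rpow_rpow_atTop (s := (1 : ℝ)) (p.b + p.κ) one_pos).bound one_pos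
    have h3 := (tendsto_pow_atTop_atTop_of_one_lt (by norm_num : (1 : ℝ) < 2)).eventually h2
    filter_upwards [h3] with i h4
    rw [one_mul, Real.rpow_one] at h4
    have h5 : (0 : ℝ) ≤ Real.log (2 ^ i) := Real.log_nonneg (one_le_pow₀ (by norm_num))
    rw [Real.norm_of_nonneg (by positivity), Real.norm_of_nonneg (by positivity)] at h4
    exact h4
  filter_upwards [hs, hev2, eventually_ge_atTop 2, hlog] with i hi hPi hi2 hlogi
  obtain ⟨hV1, hV2, hsy⟩ := hi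
  have hX : (0 : ℝ) < 2 ^ i := by positivity
  have hX1 : (1 : ℝ) ≤ 2 ^ i := one_le_pow₀ (by norm_num)
  have hVpos : 0 < VV α c w i := by linarith
  have hL1 : 1 ≤ Real.log ((2 : ℝ) ^ i) := by
    rw [Real.log_pow]
    have h4 : (2 : ℝ) ≤ i := by exact_mod_cast hi2
    have h5 := Real.log_two_gt_d9
    nlinarith
  set L := Real.log ((2 : ℝ) ^ i) with hL
  have hLb : 1 ≤ L ^ p.b := Real.one_le_rpow hL1 hb.le
  obtain ⟨W, -, -, -, -, -, r1, r2, r3⟩ := hspec i hPi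
  have hsum : ∀ y, ∑ n ∈ Icc 1 ⌊3 * (2 : ℝ) ^ i⌋₊, w i n * R n y = MM w i y := fun y =>
    wsel_sum p i hPi (fun n => R n y)
  simp only [hsum] at r1 r2 r3
  have hmean : ∀ y, mean (ms α c) (SW α c i) (fun n => vv α c (w i) n / VV α c w i) y =
      NN α c w i y / VV α c w i := by
    intro y
    unfold mean NN
    rw [Finset.sum_div]
    apply Finset.sum_congr rfl
    intro n _
    ring
  have h910 : ((2 : ℝ) ^ i) ^ (9 / 10 : ℝ) ≤ 2 ^ i := by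
    calc ((2 : ℝ) ^ i) ^ (9 / 10 : ℝ) ≤ ((2 : ℝ) ^ i) ^ (1 : ℝ) :=
          Real.rpow_le_rpow_of_exponent_le hX1 (by norm_num)
      _ = 2 ^ i := Real.rpow_one _
  have hB1 : |p.δ| ≤ p.δ + p.δ / p.C := by rw [abs_of_pos hδ]; linarith
  have hB2 : |(-p.δ)| ≤ p.δ + p.δ / p.C := by rw [abs_neg]; exact hB1
  have hB3 : |p.δ / p.C| ≤ p.δ + p.δ / p.C := by rw [abs_of_pos hδC]; linarith
  have hB4 : |(-(p.δ / p.C))| ≤ p.δ + p.δ / p.C := by rw [abs_neg]; exact hB3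
  refine ⟨fun n => vv α c (w i) n / VV α c w i, fun n => div_nonneg (vv_nonneg hα hc (hw0 i) n) hVpos.le,
    ?_, ?_, ?_, ?_, ?_⟩
  · -- the size of the weights
    intro n hn
    rw [mem_SW hα hc] at hn
    have hwt := wt_pos hc (m := ms α c n) (by omega)
    have h2 := inv_wt hc hn.2.1 hn.2.2
    have h3 := (wsel_bd p i (ms α c n)).2
    have h4 : vv α c (w i) n ≤ 60 * c / a * ((2 : ℝ) ^ i) ^ (p.ε - 1 / c) := by
      unfold vv
      rw [← ha]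
      calc w i (ms α c n) / (wt c (ms α c n) * a) = w i (ms α c n) * (1 / wt c (ms α c n)) * (1 / a) := by
            field_simp
        _ ≤ (20 * ((2 : ℝ) ^ i) ^ (p.ε - 1)) * (3 * c * ((2 : ℝ) ^ i) ^ (1 - 1 / c)) * (1 / a) := by
            apply mul_le_mul_of_nonneg_right _ (by positivity)
            exact mul_le_mul h3 h2 (by positivity) (by positivity)
        _ = 60 * c / a * (((2 : ℝ) ^ i) ^ (p.ε - 1) * ((2 : ℝ) ^ i) ^ (1 - 1 / c)) := by ring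
        _ = _ := by
            rw [← Real.rpow_add hX]
            congr 2
            ring
    rw [div_le_iff₀ hVpos]
    have h5 : 0 ≤ 60 * c / a * ((2 : ℝ) ^ i) ^ (p.ε - 1 / c) := by positivity
    calc vv α c (w i) n ≤ 60 * c / a * ((2 : ℝ) ^ i) ^ (p.ε - 1 / c) := h4
      _ ≤ (60 * c / a * ((2 : ℝ) ^ i) ^ (p.ε - 1 / c)) * (2 * VV α c w i) :=
          le_mul_of_one_le_right h5 (by linarith)
      _ = _ := by ring
  · rw [← Finset.sum_div]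
    exact div_self hVpos.ne'
  · -- the first range
    intro y hy1 hy2
    rw [hmean]
    have hy3 : y ≤ 2 ^ i := by linarith
    obtain ⟨⟨z, z1, z2, z3, hz⟩, ⟨z', z1', z2', hz'⟩⟩ := hsy y hy1 hy3
    rcases hσ with hs | hs
    · rw [hs] at r1 ⊢
      have h2 := r1 z z1 (by linarith [Real.rpow_nonneg (by linarith : 0 ≤ L) (p.b + p.κ)])
      have h3 := hz p.δ hB1 (by linarith)
      linarith
    · rw [hs] at r1 ⊢
      have h2 := r1 z' (by linarith) (by linarith)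
      have h3 := hz' (-p.δ) hB2 (by linarith)
      linarith
  · intro y hy1 hy2
    rw [hmean]
    have hy3 : y ≤ 2 ^ i := by linarith
    obtain ⟨⟨z, z1, z2, z3, hz⟩, ⟨z', z1', z2', hz'⟩⟩ := hsy y hy1 hy3
    rcases hσ with hs | hs
    · rw [hs] at r2 ⊢
      have h2 := r2 z z1 (by linarith)
      have h3 := hz (-(p.δ / p.C)) hB4 (by linarith)
      linarith
    · rw [hs] at r2 ⊢
      have h2 := r2 z' (by linarith) (by linarith)
      have h3 := hz' (p.δ / p.C) hB3 (by linarith)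
      linarith
  · intro y hy1 hy2
    rw [hmean]
    have hy3 : y ≤ 2 ^ i := by linarith
    have hbη : L ^ p.b ≤ L ^ (p.b + p.η) := Real.rpow_le_rpow_of_exponent_le hL1 (by linarith)
    obtain ⟨⟨z, z1, z2, z3, hz⟩, ⟨z', z1', z2', hz'⟩⟩ := hsy y (by linarith) hy3
    have h2 := abs_le.mp (r3 z (by linarith) (by linarith))
    have h3 := hz (-(p.δ / p.C)) hB4 (by linarith [h2.1])
    have h4 := abs_le.mp (r3 z' (by linarith) (by linarith))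
    have h5 := hz' (p.δ / p.C) hB3 (by linarith [h4.2])
    rw [abs_le]
    constructor <;> linarith

set_option maxHeartbeats 4000000 in
/-- separation of scales along `⌊n ^ c⌋` for all `c ≤ C₁` outside a small set -/
theorem all_exponents (hmain : S_MAIN) (C₁ : ℝ) (hC₁ : 1 ≤ C₁) : ∃ E : Set ℝ, dimH E < 1 ∧
    ∀ c : ℝ, 1 < c → c ≤ C₁ → c ∉ E → S_SEQ 1 c := by
  classical
  obtain ⟨κ0, hκ00, hκ01, htr⟩ := transferE C₁ hC₁
  -- the constants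
  have hM1 : ∃ κf : ℝ → ℝ → ℝ, ∀ a η : ℝ, 0 < a → 0 < η → 0 < κf a η ∧
      ∀ (C σ : ℝ), 0 < C → (σ = 1 ∨ σ = -1) → ∃ δ : ℝ, 0 < δ ∧ ∀ ε : ℝ, 0 < ε →
        ∀ᶠ X : ℝ in atTop, ∃ w, Prp a η (κf a η) C σ δ ε X w := by
    refine ⟨fun a η => if h : 0 < a ∧ 0 < η then (hmain a η h.1 h.2).choose else 0, fun a η ha hη => ?_⟩
    simp only [dif_pos (⟨ha, hη⟩ : 0 < a ∧ 0 < η)]
    obtain ⟨h1, h2⟩ := (hmain a η ha hη).choose_spec
    refine ⟨h1, fun C σ hC hσ => ?_⟩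
    obtain ⟨δ, hδ, h3⟩ := h2 C σ hC hσ
    refine ⟨δ, hδ, fun ε hε => ?_⟩
    filter_upwards [h3 ε hε] with X hX
    obtain ⟨W, w, hw⟩ := hX
    exact ⟨w, W, hw⟩
  obtain ⟨κf, hκf⟩ := hM1
  have hM2 : ∃ δf : ℝ → ℝ → ℝ → ℝ → ℝ, ∀ a η C σ : ℝ, 0 < a → 0 < η → 0 < C → (σ = 1 ∨ σ = -1) →
      0 < δf a η C σ ∧ ∀ ε : ℝ, 0 < ε → ∀ᶠ X : ℝ in atTop, ∃ w, Prp a η (κf a η) C σ (δf a η C σ) ε X w := by
    refine ⟨fun a η C σ => if h : (0 < a ∧ 0 < η) ∧ 0 < C ∧ (σ = 1 ∨ σ = -1) then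
      ((hκf a η h.1.1 h.1.2).2 C σ h.2.1 h.2.2).choose else 0, fun a η C σ ha hη hC hσ => ?_⟩
    simp only [dif_pos (⟨⟨ha, hη⟩, hC, hσ⟩ : (0 < a ∧ 0 < η) ∧ 0 < C ∧ (σ = 1 ∨ σ = -1))]
    exact ((hκf a η ha hη).2 C σ hC hσ).choose_spec
  obtain ⟨δf, hδf⟩ := hM2
  -- the countable families of exponents
  have hcov : ∀ m : ℕ, ∃ A : Set ℝ, A.Countable ∧ (∀ b ∈ A, 0 < b) ∧
      ∀ a : ℝ, 0 < a → ∃ b ∈ A, b ≤ a ∧ a < b + κf b (1 / ((m : ℝ) + 1)) := fun m =>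
    cover (fun b => κf b (1 / ((m : ℝ) + 1))) (fun b hb => (hκf b _ hb (by positivity)).1)
  choose A hAc hA0 hAcov using hcov
  have : ∀ m, Countable (A m) := fun m => (hAc m).to_subtype
  set P : (Σ m : ℕ, (A m : Set ℝ)) × ℕ × Bool × ℕ → Par := fun q =>
    { b := q.1.2
      η := 1 / ((q.1.1 : ℝ) + 1)
      κ := κf q.1.2 (1 / ((q.1.1 : ℝ) + 1))
      C := (q.2.1 : ℝ) + 1
      σ := if q.2.2.1 then 1 else -1
      δ := δf q.1.2 (1 / ((q.1.1 : ℝ) + 1)) ((q.2.1 : ℝ) + 1) (if q.2.2.1 then 1 else -1)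
      ε := κ0 / ((q.2.2.2 : ℝ) + 1) } with hP
  have hσ' : ∀ s : Bool, (if s then (1 : ℝ) else -1) = 1 ∨ (if s then (1 : ℝ) else -1) = -1 := by
    intro s
    cases s
    · right; rfl
    · left; rfl
  have hPok : ∀ q, (P q).Ok ∧ (P q).ε ≤ κ0 := by
    rintro ⟨⟨m, b, hb⟩, C, s, e⟩
    have hb0 := hA0 m b hb
    have hη : (0 : ℝ) < 1 / ((m : ℝ) + 1) := by positivity
    have hC : (0 : ℝ) < (C : ℝ) + 1 := by positivity
    have hε : 0 < κ0 / ((e : ℝ) + 1) := by positivity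
    obtain ⟨h1, h2⟩ := hδf b _ _ _ hb0 hη hC (hσ' s)
    refine ⟨⟨hb0, hη, (hκf b _ hb0 hη).1, hC, hσ' s, h1, hε, h2 _ hε⟩, ?_⟩
    show κ0 / ((e : ℝ) + 1) ≤ κ0
    apply div_le_self hκ00.le
    have : (0 : ℝ) ≤ e := Nat.cast_nonneg _
    linarith
  obtain ⟨E, hE, hlaw⟩ := htr (fun q => wsel (P q)) (fun q => (P q).b) (fun q => ⟨20, by norm_num, fun i t => by
    obtain ⟨h2, h3⟩ := wsel_bd (P q) i t
    rw [abs_of_nonneg h2]
    refine h3.trans (mul_le_mul_of_nonneg_left ?_ (by norm_num))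
    exact Real.rpow_le_rpow_of_exponent_le (one_le_pow₀ (by norm_num)) (by linarith [(hPok q).2])⟩)
  refine ⟨E, hE, fun c hc hcC hcE a η ha hη => ?_⟩
  obtain ⟨m, hm⟩ := exists_nat_gt (2 / η)
  have hηm : 1 / ((m : ℝ) + 1) ≤ η / 2 := by
    have h1 : 0 < 2 / η := by positivity
    have h2 : 2 / η < (m : ℝ) + 1 := by linarith
    rw [div_le_div_iff₀ (by positivity) (by norm_num)]
    rw [div_lt_iff₀ hη] at h2
    linarith
  obtain ⟨b, hbA, hba, hab⟩ := hAcov m a ha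
  have hb0 := hA0 m b hbA
  set κb := κf b (1 / ((m : ℝ) + 1)) with hκb
  refine ⟨(b + κb - a) / 2, by linarith, fun C σ hC hσ => ?_⟩
  obtain ⟨Cn, hCn⟩ := exists_nat_gt (4 * C)
  obtain ⟨s, hs⟩ : ∃ s : Bool, (if s then (1 : ℝ) else -1) = σ := by
    rcases hσ with h | h
    · exact ⟨true, by simp [h]⟩
    · exact ⟨false, by simp [h]⟩
  set δ0 := δf b (1 / ((m : ℝ) + 1)) ((Cn : ℝ) + 1) σ with hδ0
  have hδ0p : 0 < δ0 := (hδf b _ _ _ hb0 (by positivity) (by positivity) hσ).1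
  refine ⟨δ0 / 2, by positivity, fun ε hε => ?_⟩
  obtain ⟨e, he⟩ := exists_nat_gt (2 * κ0 / ε)
  have heε : κ0 / ((e : ℝ) + 1) ≤ ε / 2 := by
    have h2 : 2 * κ0 / ε < (e : ℝ) + 1 := by linarith
    rw [div_le_div_iff₀ (by positivity) (by norm_num)]
    rw [div_lt_iff₀ hε] at h2
    linarith
  obtain ⟨C0, hC0, hout⟩ := core_one one_pos hc (P (⟨m, b, hbA⟩, Cn, s, e)) (hPok _).1
    (hlaw c hc hcC hcE _).1 (hlaw c hc hcC hcE _).2
  -- large scales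
  have ev1 : ∀ᶠ i : ℕ in atTop, 2 ≤ Real.log ((2 : ℝ) ^ i) ^ ((b + κb - a) / 2) :=
    ((tendsto_rpow_atTop (by linarith)).comp tend_L).eventually_ge_atTop 2
  have ev2 : ∀ᶠ i : ℕ in atTop, 2 ≤ Real.log ((2 : ℝ) ^ i) ^ (η / 2) :=
    ((tendsto_rpow_atTop (by linarith)).comp tend_L).eventually_ge_atTop 2
  have ev3 : ∀ᶠ i : ℕ in atTop, C0 ≤ ((2 : ℝ) ^ i) ^ (ε / 2) :=
    ((tendsto_rpow_atTop (by linarith)).comp
      (tendsto_pow_atTop_atTop_of_one_lt (by norm_num : (1 : ℝ) < 2))).eventually_ge_atTop C0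
  have ev4 : ∀ᶠ i : ℕ in atTop, 2 ≤ ((2 : ℝ) ^ i) ^ (1 / 20 : ℝ) :=
    ((tendsto_rpow_atTop (by norm_num)).comp
      (tendsto_pow_atTop_atTop_of_one_lt (by norm_num : (1 : ℝ) < 2))).eventually_ge_atTop 2
  filter_upwards [hout, ev1, ev2, ev3, ev4, tend_L.eventually_ge_atTop 1] with i hi g1 g2 g3 g4 hL1
  obtain ⟨u, u1, u2, u3, u4, u5, u6⟩ := hi
  simp only [hP] at u2 u4 u5 u6
  rw [hs] at u4 u5 u6
  rw [← hκb, ← hδ0] at u4
  rw [← hδ0] at u5 u6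
  have hX : (0 : ℝ) < 2 ^ i := by positivity
  have hX1 : (1 : ℝ) ≤ 2 ^ i := one_le_pow₀ (by norm_num)
  set L := Real.log ((2 : ℝ) ^ i) with hL
  have hL0 : 0 < L := by linarith
  have hLba : L ^ b ≤ L ^ a := Real.rpow_le_rpow_of_exponent_le hL1 hba
  have hXr : ((2 : ℝ) ^ i) ^ (17 / 20 : ℝ) ≤ ((2 : ℝ) ^ i) ^ (9 / 10 : ℝ) / 2 := by
    have h1 : ((2 : ℝ) ^ i) ^ (9 / 10 : ℝ) = ((2 : ℝ) ^ i) ^ (17 / 20 : ℝ) * ((2 : ℝ) ^ i) ^ (1 / 20 : ℝ) := by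
      rw [← Real.rpow_add hX]
      norm_num
    have h2 : 0 < ((2 : ℝ) ^ i) ^ (17 / 20 : ℝ) := by positivity
    rw [h1]
    nlinarith
  have hδC : 2 * (δ0 / ((Cn : ℝ) + 1)) ≤ δ0 / 2 / C := by
    rw [div_div, mul_div_assoc', div_le_div_iff₀ (by positivity) (by positivity)]
    nlinarith
  refine ⟨u, u1, ?_, u3, ?_, ?_, ?_⟩
  · intro n hn
    refine (u2 n hn).trans ?_
    calc C0 * ((2 : ℝ) ^ i) ^ (κ0 / ((e : ℝ) + 1) - 1 / c) ≤
        ((2 : ℝ) ^ i) ^ (ε / 2) * ((2 : ℝ) ^ i) ^ (ε / 2 - 1 / c) := by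
          apply mul_le_mul g3 _ (by positivity) (by positivity)
          exact Real.rpow_le_rpow_of_exponent_le hX1 (by linarith)
      _ = _ := by
          rw [← Real.rpow_add hX]
          congr 1
          ring
  · intro y hy1 hy2
    apply u4 y (hLba.trans hy1)
    have h1 : L ^ (b + κb) = L ^ (a + (b + κb - a) / 2) * L ^ ((b + κb - a) / 2) := by
      rw [← Real.rpow_add hL0]
      congr 1
      ring
    have h2 : 0 < L ^ (a + (b + κb - a) / 2) := by positivity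
    rw [h1]
    nlinarith
  · intro y hy1 hy2
    have := u5 y (hLba.trans hy1) (hy2.trans hXr)
    linarith
  · intro y hy1 hy2
    refine (u6 y ?_ (hy2.trans hXr)).trans hδC
    refine le_trans ?_ hy1
    have h1 : L ^ (a + η) = L ^ (a + η / 2) * L ^ (η / 2) := by
      rw [← Real.rpow_add hL0]
      congr 1
      ring
    have h2 : L ^ (b + 1 / ((m : ℝ) + 1)) ≤ L ^ (a + η / 2) :=
      Real.rpow_le_rpow_of_exponent_le hL1 (by linarith)
    have h3 : 0 < L ^ (a + η / 2) := by positivity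
    rw [h1]
    nlinarith

end Pool.Agent.U265.ME
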