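import Pool.Agent.U265.MM.Sand
import Pool.Agent.Y854.PS.SampExp

/-! The window law along `⌊n ^ c⌋` for all exponents outside a small set, for functions which do not
depend on the exponent. -/

set_option autoImplicit false

open Finset Filter

namespace Pool.Agent.U265.ME

open Pool.Agent.H706R2.PS
open Pool.Agent.Y854.PS
open Pool.Agent.Y854.GM
open Pool.Agent.U265.MM
open Pool.Agent.N610.MS (R)

/-- **The sampling law for families, exponents.** -/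
theorem samp_genE (C0 : ℝ) (hC0 : 1 ≤ C0) : ∃ κ : ℝ, 0 < κ ∧ κ ≤ 1 / (8 * C0) ∧ ∀ (p : ℕ) (M : ℕ → ℕ),
    (∀ i, M i ≤ (i + 2) ^ p) → ∀ A : ℕ → ℕ → Set ℕ, ∃ E : Set ℝ, dimH E ≤ ENNReal.ofReal (1 - κ) ∧
      ∀ c : ℝ, 1 < c → c ≤ C0 → c ∉ E → SampG A M (ms 1 c) c ((1 : ℝ) ^ (-(1 / c))) κ := by
  classical
  obtain ⟨κ, hκ0, hκ1, hfam⟩ := fam C0 hC0
  refine ⟨κ / 64, by positivity, by linarith, fun p M hM A => ?_⟩
  obtain ⟨E, hE, h⟩ := hfam p M hM A
  refine ⟨E, hE, fun c hc1 hc2 hcE => ⟨16, by norm_num, ?_⟩⟩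
  obtain ⟨i1, h1⟩ := h c hc1 hc2 hcE
  obtain ⟨i2, h2⟩ := ms_strict (α := 1) one_pos hc1
  refine ⟨max i1 i2, fun i hi k hk u v hu huv hv S hS => ?_⟩
  have hi1 : i1 ≤ i := (le_max_left _ _).trans hi
  have hi2 : i2 ≤ i := (le_max_right _ _).trans hi
  have h3 := h1 i hi1 k hk v (hu.trans huv) hv
  have h4 := h1 i hi1 k hk u hu (huv.trans hv)
  rw [nPS_split _ c hu huv, mainT_split _ c hu huv] at h3
  have h5 : 2 ^ i2 ≤ u := (Nat.pow_le_pow_right (by norm_num) hi2).trans hu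
  have h6 := card_S (A i k) hc1 h5 h2 S hS
  have h7 : ∑ t ∈ Ioc u v, wt c t * (if t ∈ A i k then (1 : ℝ) else 0) = mainT (Ax (A i k) u v) c := by
    unfold mainT Ax wt
    rw [Finset.sum_filter]
    apply Finset.sum_congr rfl
    intro t _
    split_ifs <;> ring
  have h8 : ∑ n ∈ S, (if ms 1 c n ∈ A i k then (1 : ℝ) else 0) =
      ((S.filter (fun n => ms 1 c n ∈ A i k)).card : ℝ) := by
    rw [Finset.sum_boole]
  rw [h8, h6, h7, Real.one_rpow, one_mul]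
  have hX : (1 : ℝ) ≤ (2 : ℝ) ^ i := one_le_pow₀ (by norm_num)
  have hmono : ((2 : ℝ) ^ i) ^ (1 / c - κ / 4) ≤ ((2 : ℝ) ^ i) ^ (1 / c - κ / 64) :=
    Real.rpow_le_rpow_of_exponent_le hX (by linarith)
  rw [abs_le] at h3 h4 ⊢
  constructor <;> linarith [h3.1, h3.2, h4.1, h4.2]

open Classical in
/-- the members of the sequence in `(u, v]` -/
noncomputable def SV (α c : ℝ) (u v : ℕ) : Finset ℕ :=
  if h : {n : ℕ | 1 ≤ n ∧ u < ms α c n ∧ ms α c n ≤ v}.Finite then h.toFinset else ∅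

lemma mem_SV {α c : ℝ} (hα : 0 < α) (hc : 1 < c) (u v n : ℕ) :
    n ∈ SV α c u v ↔ 1 ≤ n ∧ u < ms α c n ∧ ms α c n ≤ v := by
  have h : {n : ℕ | 1 ≤ n ∧ u < ms α c n ∧ ms α c n ≤ v}.Finite :=
    (fin_W hα hc v).subset fun n hn => hn.2.2
  unfold SV
  rw [dif_pos h, Set.Finite.mem_toFinset]
  rfl

lemma SV_add {α c : ℝ} (hα : 0 < α) (hc : 1 < c) {u v z : ℕ} (h1 : u ≤ v) (h2 : v ≤ z) (F : ℕ → ℝ) :
    ∑ n ∈ SV α c u z, F n = ∑ n ∈ SV α c u v, F n + ∑ n ∈ SV α c v z, F n := by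
  classical
  rw [← Finset.sum_union]
  · apply Finset.sum_congr _ (fun _ _ => rfl)
    ext n
    rw [mem_union, mem_SV hα hc, mem_SV hα hc, mem_SV hα hc]
    constructor
    · rintro ⟨a, b, d⟩
      by_cases h : ms α c n ≤ v
      · exact Or.inl ⟨a, b, h⟩
      · exact Or.inr ⟨a, by omega, d⟩
    · rintro (⟨a, b, d⟩ | ⟨a, b, d⟩)
      · exact ⟨a, b, by omega⟩
      · exact ⟨a, by omega, d⟩
  · rw [Finset.disjoint_left]
    intro n hn hn'
    rw [mem_SV hα hc] at hn hn'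
    omega

/-- Abel summation -/
lemma abel_id {α c : ℝ} (hα : 0 < α) (hc : 1 < c) (a : ℝ) (G φ : ℕ → ℝ) (u v : ℕ) (huv : u ≤ v) :
    ∑ n ∈ SV α c u v, G (ms α c n) * φ (ms α c n) - a * ∑ t ∈ Ioc u v, wt c t * (G t * φ t) =
      φ v * (∑ n ∈ SV α c u v, G (ms α c n) - a * ∑ t ∈ Ioc u v, wt c t * G t) -
      ∑ t ∈ Ico u v, (∑ n ∈ SV α c u t, G (ms α c n) - a * ∑ s ∈ Ioc u t, wt c s * G s) * (φ (t + 1) - φ t) := by
  classical
  induction v, huv using Nat.le_induction with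
  | base =>
    have h0 : SV α c u u = ∅ := by
      apply Finset.eq_empty_of_forall_notMem
      intro n hn
      rw [mem_SV hα hc] at hn
      omega
    simp [h0]
  | succ v huv ih =>
    have e1 := SV_add hα hc huv (Nat.le_succ v) (fun n => G (ms α c n) * φ (ms α c n))
    have e2 := SV_add hα hc huv (Nat.le_succ v) (fun n => G (ms α c n))
    have e3 : ∑ n ∈ SV α c v (v + 1), G (ms α c n) * φ (ms α c n) =
        φ (v + 1) * ∑ n ∈ SV α c v (v + 1), G (ms α c n) := by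
      rw [Finset.mul_sum]
      apply Finset.sum_congr rfl
      intro n hn
      rw [mem_SV hα hc] at hn
      have : ms α c n = v + 1 := by omega
      rw [this]
      ring
    simp only [Nat.succ_eq_add_one] at e1 e2
    rw [e1, e2, e3, Finset.sum_Ico_succ_top huv, Finset.sum_Ioc_succ_top huv, Finset.sum_Ioc_succ_top huv]
    linear_combination ih

lemma abel_bd {α c : ℝ} (hα : 0 < α) (hc : 1 < c) (a : ℝ) (G φ : ℕ → ℝ) (u v : ℕ) (huv : u ≤ v) (B : ℝ)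
    (hD : ∀ t, u ≤ t → t ≤ v →
      |∑ n ∈ SV α c u t, G (ms α c n) - a * ∑ s ∈ Ioc u t, wt c s * G s| ≤ B)
    (hφ0 : 0 ≤ φ u) (hφ : ∀ t, u ≤ t → t < v → φ t ≤ φ (t + 1)) :
    |∑ n ∈ SV α c u v, G (ms α c n) * φ (ms α c n) - a * ∑ t ∈ Ioc u v, wt c t * (G t * φ t)| ≤
      2 * B * φ v := by
  rw [abel_id hα hc a G φ u v huv]
  have hB : 0 ≤ B := (abs_nonneg _).trans (hD u le_rfl huv)
  have hsum : ∑ t ∈ Ico u v, (φ (t + 1) - φ t) = φ v - φ u := Finset.sum_Ico_sub φ huv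
  have h1 : |∑ t ∈ Ico u v, (∑ n ∈ SV α c u t, G (ms α c n) - a * ∑ s ∈ Ioc u t, wt c s * G s) *
      (φ (t + 1) - φ t)| ≤ B * (φ v - φ u) := by
    refine (Finset.abs_sum_le_sum_abs _ _).trans ?_
    rw [← hsum, Finset.mul_sum]
    apply Finset.sum_le_sum
    intro t ht
    rw [mem_Ico] at ht
    have h2 := hφ t ht.1 ht.2
    rw [abs_mul, abs_of_nonneg (by linarith : 0 ≤ φ (t + 1) - φ t)]
    exact mul_le_mul_of_nonneg_right (hD t ht.1 ht.2.le) (by linarith)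
  have hφv : 0 ≤ φ v := by
    have h3 : 0 ≤ φ v - φ u := by
      rw [← hsum]
      apply Finset.sum_nonneg
      intro t ht
      rw [mem_Ico] at ht
      linarith [hφ t ht.1 ht.2]
    linarith
  have h2 : |φ v * (∑ n ∈ SV α c u v, G (ms α c n) - a * ∑ t ∈ Ioc u v, wt c t * G t)| ≤ φ v * B := by
    rw [abs_mul, abs_of_nonneg hφv]
    exact mul_le_mul_of_nonneg_left (hD v huv le_rfl) hφv
  refine (abs_sub _ _).trans ?_
  nlinarith

end Pool.Agent.U265.ME
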